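import Mathlib

set_option autoImplicit false

/-!
Kempe changes on colourings with values in `Fin k`, the single vertex recolouring move, the
two vertex exchange, permutations of colours, and the pairing attached to a colouring with
classes of size at most two.
-/

namespace Pool.Agent.KM

open Relation

variable {V : Type} [Fintype V] [DecidableEq V]

/-- One Kempe change. -/
def Step (G : SimpleGraph V) {k : ℕ} (c₁ c₂ : V → Fin k) : Prop :=
  ∃ a b : Fin k, ∃ v : V, ∀ u : V,
    ((∃ p : G.Walk v u, ∀ x ∈ p.support, c₁ x = a ∨ c₁ x = b) →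
        c₂ u = Equiv.swap a b (c₁ u)) ∧
    ((¬ ∃ p : G.Walk v u, ∀ x ∈ p.support, c₁ x = a ∨ c₁ x = b) →
        c₂ u = c₁ u)

/-- Reachability by Kempe changes. -/
def K (G : SimpleGraph V) {k : ℕ} : (V → Fin k) → (V → Fin k) → Prop :=
  ReflTransGen (Step G)

def Comp (G : SimpleGraph V) {k : ℕ} (c : V → Fin k) (a b : Fin k) (v u : V) : Prop :=
  ∃ p : G.Walk v u, ∀ x ∈ p.support, c x = a ∨ c x = b

omit [Fintype V] [DecidableEq V] in
lemma Comp.refl {G : SimpleGraph V} {k : ℕ} {c : V → Fin k} {a b : Fin k} {v : V}
    (h : c v = a ∨ c v = b) : Comp G c a b v v :=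
  ⟨SimpleGraph.Walk.nil, by simpa using h⟩

omit [Fintype V] [DecidableEq V] in
lemma Comp.left {G : SimpleGraph V} {k : ℕ} {c : V → Fin k} {a b : Fin k} {v u : V}
    (h : Comp G c a b v u) : c v = a ∨ c v = b := by
  obtain ⟨p, hp⟩ := h
  exact hp v p.start_mem_support

omit [Fintype V] [DecidableEq V] in
lemma Comp.right {G : SimpleGraph V} {k : ℕ} {c : V → Fin k} {a b : Fin k} {v u : V}
    (h : Comp G c a b v u) : c u = a ∨ c u = b := by
  obtain ⟨p, hp⟩ := h
  exact hp u p.end_mem_support

omit [Fintype V] [DecidableEq V] in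
lemma Comp.symm {G : SimpleGraph V} {k : ℕ} {c : V → Fin k} {a b : Fin k} {v u : V}
    (h : Comp G c a b v u) : Comp G c a b u v := by
  obtain ⟨p, hp⟩ := h
  exact ⟨p.reverse, by simpa using hp⟩

omit [Fintype V] [DecidableEq V] in
lemma Comp.trans {G : SimpleGraph V} {k : ℕ} {c : V → Fin k} {a b : Fin k} {v u w : V}
    (h : Comp G c a b v u) (h' : Comp G c a b u w) : Comp G c a b v w := by
  obtain ⟨p, hp⟩ := h
  obtain ⟨q, hq⟩ := h'
  refine ⟨p.append q, fun x hx => ?_⟩
  rw [SimpleGraph.Walk.mem_support_append_iff] at hx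
  rcases hx with hx | hx
  · exact hp x hx
  · exact hq x hx

omit [Fintype V] [DecidableEq V] in
lemma Comp.mem_closed {G : SimpleGraph V} {k : ℕ} {c : V → Fin k} {a b : Fin k} {v u : V}
    (S : Set V) (hv : v ∈ S)
    (hS : ∀ x ∈ S, ∀ y, G.Adj x y → (c y = a ∨ c y = b) → y ∈ S)
    (h : Comp G c a b v u) : u ∈ S := by
  obtain ⟨p, hp⟩ := h
  induction p with
  | nil => exact hv
  | cons hadj q ih =>
    have hsup : ∀ x ∈ q.support, c x = a ∨ c x = b := fun x hx => hp x (by simp [hx])
    exact ih (hS _ hv _ hadj (hsup _ q.start_mem_support)) hsup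

omit [Fintype V] [DecidableEq V] in
/-- A Kempe change given by an explicit component. -/
lemma step_of_comp {G : SimpleGraph V} {k : ℕ} {c c' : V → Fin k} (a b : Fin k) (v : V)
    (S : Set V) (hcomp : ∀ u, Comp G c a b v u ↔ u ∈ S)
    (h1 : ∀ u ∈ S, c' u = Equiv.swap a b (c u)) (h2 : ∀ u ∉ S, c' u = c u) :
    Step G c c' := by
  refine ⟨a, b, v, fun u => ⟨fun h => h1 u ((hcomp u).1 h), fun h => h2 u fun hu => h ?_⟩⟩
  exact (hcomp u).2 hu

omit [Fintype V] in
/-- Recolouring a single vertex. -/
lemma step_single {G : SimpleGraph V} {k : ℕ} {c : V → Fin k} (y : V) (a : Fin k)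
    (hy : ∀ x, G.Adj y x → c x ≠ c y) (ha : ∀ x, G.Adj y x → c x ≠ a) :
    Step G c (Function.update c y a) := by
  refine step_of_comp a (c y) y {y} (fun u => ⟨fun h => ?_, fun h => ?_⟩) ?_ ?_
  · refine Comp.mem_closed {y} rfl ?_ h
    intro x hx z hxz hz
    obtain rfl : x = y := hx
    rcases hz with hz | hz
    · exact absurd hz (ha z hxz)
    · exact absurd hz (hy z hxz)
  · obtain rfl : u = y := h
    exact Comp.refl (Or.inr rfl)
  · intro u hu
    obtain rfl : u = y := hu
    simp
  · intro u hu
    have : u ≠ y := hu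
    simp [this]

omit [Fintype V] in
/-- Exchanging the colours of two adjacent vertices. -/
lemma step_pair {G : SimpleGraph V} {k : ℕ} {c : V → Fin k} (y y' : V) (hadj : G.Adj y y')
    (h1 : ∀ x, G.Adj y x → (c x = c y ∨ c x = c y') → x = y')
    (h2 : ∀ x, G.Adj y' x → (c x = c y ∨ c x = c y') → x = y) :
    Step G c (Function.update (Function.update c y (c y')) y' (c y)) := by
  have hne : y ≠ y' := hadj.ne
  refine step_of_comp (c y) (c y') y {y, y'} (fun u => ⟨fun h => ?_, fun h => ?_⟩) ?_ ?_
  · refine Comp.mem_closed {y, y'} (by simp) ?_ h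
    intro x hx z hxz hz
    rcases hx with rfl | hx
    · right
      exact h1 z hxz hz
    · obtain rfl : x = y' := hx
      left
      exact h2 z hxz hz
  · rcases h with rfl | h
    · exact Comp.refl (Or.inl rfl)
    · obtain rfl : u = y' := h
      refine ⟨SimpleGraph.Walk.cons hadj SimpleGraph.Walk.nil, ?_⟩
      intro x hx
      simp only [SimpleGraph.Walk.support_cons, SimpleGraph.Walk.support_nil, List.mem_cons,
        List.not_mem_nil, or_false] at hx
      rcases hx with rfl | rfl
      · exact Or.inl rfl
      · exact Or.inr rfl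
  · intro u hu
    rcases hu with rfl | hu
    · simp [Function.update_of_ne hne]
    · obtain rfl : u = y' := hu
      simp
  · intro u hu
    simp only [Set.mem_insert_iff, Set.mem_singleton_iff, not_or] at hu
    simp [Function.update_of_ne hu.1, Function.update_of_ne hu.2]

omit [Fintype V] [DecidableEq V] in
lemma Step.symm {G : SimpleGraph V} {k : ℕ} {c c' : V → Fin k} (h : Step G c c') :
    Step G c' c := by
  obtain ⟨a, b, v, h⟩ := h
  have hS : ∀ x, (c' x = a ∨ c' x = b) ↔ (c x = a ∨ c x = b) := by
    intro x
    by_cases hx : ∃ p : G.Walk v x, ∀ y ∈ p.support, c y = a ∨ c y = b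
    · rw [(h x).1 hx]
      have hx' : c x = a ∨ c x = b := Comp.right hx
      rcases hx' with hx' | hx'
      · simp [hx']
      · simp [hx']
    · rw [(h x).2 hx]
  have hC : ∀ u, (∃ p : G.Walk v u, ∀ x ∈ p.support, c' x = a ∨ c' x = b) ↔
      (∃ p : G.Walk v u, ∀ x ∈ p.support, c x = a ∨ c x = b) := by
    intro u
    simp only [hS]
  refine ⟨a, b, v, fun u => ⟨fun hu => ?_, fun hu => ?_⟩⟩
  · rw [(h u).1 ((hC u).1 hu)]
    simp
  · rw [(h u).2 (fun h' => hu ((hC u).2 h'))]

omit [Fintype V] [DecidableEq V] in
lemma K.symm {G : SimpleGraph V} {k : ℕ} {c c' : V → Fin k} (h : K G c c') :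
    K G c' c := by
  induction h with
  | refl => exact ReflTransGen.refl
  | tail _ hbc ih => exact ReflTransGen.head hbc.symm ih

/-- Exchanging two colours everywhere. -/
lemma K_swap (G : SimpleGraph V) {k : ℕ} (c : V → Fin k) (a b : Fin k) :
    K G c (fun v => Equiv.swap a b (c v)) := by
  classical
  -- swap on the union of the components of the vertices in a finite set
  have key : ∀ T : Finset V, K G c (fun u => if (∃ v ∈ T, Comp G c a b v u) then
      Equiv.swap a b (c u) else c u) := by
    intro T
    induction T using Finset.induction_on with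
    | empty =>
      simp only [Finset.notMem_empty, false_and, exists_false, if_false]
      exact ReflTransGen.refl
    | insert v T hv ih =>
      by_cases hvT : ∃ w ∈ T, Comp G c a b w v
      · have : (fun u => if (∃ w ∈ insert v T, Comp G c a b w u) then
            Equiv.swap a b (c u) else c u) = (fun u => if (∃ w ∈ T, Comp G c a b w u) then
            Equiv.swap a b (c u) else c u) := by
          funext u
          have : (∃ w ∈ insert v T, Comp G c a b w u) ↔ (∃ w ∈ T, Comp G c a b w u) := by
            constructor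
            · rintro ⟨w, hw, hwu⟩
              rcases Finset.mem_insert.1 hw with rfl | hw
              · obtain ⟨w', hw', hw'v⟩ := hvT
                exact ⟨w', hw', hw'v.trans hwu⟩
              · exact ⟨w, hw, hwu⟩
            · rintro ⟨w, hw, hwu⟩
              exact ⟨w, Finset.mem_insert_of_mem hw, hwu⟩
          simp only [this]
        rw [this]
        exact ih
      · refine ih.tail ?_
        set c' : V → Fin k := fun u => if (∃ w ∈ T, Comp G c a b w u) then
            Equiv.swap a b (c u) else c u with hc'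
        have hS : ∀ x, (c' x = a ∨ c' x = b) ↔ (c x = a ∨ c x = b) := by
          intro x
          by_cases hx : ∃ w ∈ T, Comp G c a b w x
          · simp only [hc', hx, if_true]
            obtain ⟨w, -, hw⟩ := hx
            rcases hw.right with h | h
            · simp [h]
            · simp [h]
          · simp only [hc', hx, if_false]
        have hC : ∀ u, Comp G c' a b v u ↔ Comp G c a b v u := by
          intro u
          simp only [Comp, hS]
        refine step_of_comp a b v {u | Comp G c a b v u} (fun u => hC u) ?_ ?_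
        · intro u hu
          have hu' : Comp G c a b v u := hu
          have h1 : ∃ w ∈ insert v T, Comp G c a b w u := ⟨v, Finset.mem_insert_self _ _, hu'⟩
          have h2 : ¬ ∃ w ∈ T, Comp G c a b w u := by
            rintro ⟨w, hw, hwu⟩
            exact hvT ⟨w, hw, hwu.trans hu'.symm⟩
          simp only [h1, if_true, hc', h2, if_false]
        · intro u hu
          have hu' : ¬ Comp G c a b v u := hu
          have : (∃ w ∈ insert v T, Comp G c a b w u) ↔ (∃ w ∈ T, Comp G c a b w u) := by
            constructor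
            · rintro ⟨w, hw, hwu⟩
              rcases Finset.mem_insert.1 hw with rfl | hw
              · exact absurd hwu hu'
              · exact ⟨w, hw, hwu⟩
            · rintro ⟨w, hw, hwu⟩
              exact ⟨w, Finset.mem_insert_of_mem hw, hwu⟩
          simp only [this, hc']
  have h := key Finset.univ
  have : (fun u => if (∃ v ∈ (Finset.univ : Finset V), Comp G c a b v u) then
      Equiv.swap a b (c u) else c u) = (fun v => Equiv.swap a b (c v)) := by
    funext u
    by_cases hu : c u = a ∨ c u = b
    · have : ∃ v ∈ (Finset.univ : Finset V), Comp G c a b v u :=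
        ⟨u, Finset.mem_univ _, Comp.refl hu⟩
      simp only [this, if_true]
    · have : ¬ ∃ v ∈ (Finset.univ : Finset V), Comp G c a b v u := by
        rintro ⟨v, -, hv⟩
        exact hu hv.right
      simp only [this, if_false]
      rw [not_or] at hu
      rw [Equiv.swap_apply_of_ne_of_ne hu.1 hu.2]
  rw [this] at h
  exact h

lemma K_perm (G : SimpleGraph V) {k : ℕ} (σ : Equiv.Perm (Fin k)) (c : V → Fin k) :
    K G c (fun v => σ (c v)) := by
  induction σ using Equiv.Perm.swap_induction_on with
  | one => exact ReflTransGen.refl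
  | swap_mul f x y hxy ih =>
    have h := K_swap G (fun v => f (c v)) x y
    exact ReflTransGen.trans ih h

/-- Two colourings with the same classes are equivalent. -/
lemma K_of_same (G : SimpleGraph V) {k : ℕ} (c d : V → Fin k)
    (h : ∀ x y, c x = c y ↔ d x = d y) : K G c d := by
  classical
  let f : {i // i ∈ Set.range c} → {i // i ∈ Set.range d} := fun i =>
    ⟨d i.2.choose, ⟨_, rfl⟩⟩
  have hf : ∀ x, (f ⟨c x, ⟨x, rfl⟩⟩ : Fin k) = d x := by
    intro x
    have := (⟨c x, ⟨x, rfl⟩⟩ : {i // i ∈ Set.range c}).2.choose_spec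
    exact (h _ _).1 this
  have hbij : Function.Bijective f := by
    constructor
    · rintro ⟨_, x, rfl⟩ ⟨_, y, rfl⟩ hxy
      have hxy' := congrArg Subtype.val hxy
      rw [hf, hf] at hxy'
      exact Subtype.ext ((h _ _).2 hxy')
    · rintro ⟨_, x, rfl⟩
      exact ⟨⟨c x, ⟨x, rfl⟩⟩, Subtype.ext (hf x)⟩
  let e : {i // i ∈ Set.range c} ≃ {i // i ∈ Set.range d} := Equiv.ofBijective f hbij
  have hσ : ∀ x, (e.extendSubtype) (c x) = d x := by
    intro x
    rw [Equiv.extendSubtype_apply_of_mem e (c x) ⟨x, rfl⟩]
    exact hf x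
  have := K_perm G e.extendSubtype c
  have heq : (fun v => e.extendSubtype (c v)) = d := funext hσ
  rwa [heq] at this

end Pool.Agent.KM
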