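import Mathlib
import Pool.Agent.KM.Kempe

set_option autoImplicit false

/-!
Matchings as involutions, elementary moves, the greedy transformation of one matching into
another one, and the realisation of the moves by Kempe changes.
-/

namespace Pool.Agent.KM

open Relation Finset

variable {V : Type} [Fintype V] [DecidableEq V]

/-- `m` is (the involution of) a matching of `H`. -/
structure IsM (H : SimpleGraph V) (m : V → V) : Prop where
  inv : ∀ x, m (m x) = x
  adj : ∀ x, m x ≠ x → H.Adj x (m x)

/-- Number of unmatched vertices. -/
def fixN (m : V → V) : ℕ := #(univ.filter (fun x => m x = x))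

/-- Number of vertices on which two matchings differ. -/
def dis (m N : V → V) : ℕ := #(univ.filter (fun x => m x ≠ N x))

/-- Force the edge `x y`; the former partners become unmatched. -/
def put (m : V → V) (x y : V) : V → V := fun v =>
  if v = x then y else if v = y then x else if v = m x ∨ v = m y then v else m v

omit [Fintype V] in
lemma put_isM {H : SimpleGraph V} {m : V → V} (hm : IsM H m) {x y : V} (hxy : H.Adj x y) :
    IsM H (put m x y) := by
  have hne : x ≠ y := hxy.ne
  constructor
  · intro v
    unfold put
    by_cases h1 : v = x
    · subst h1
      simp [hne.symm]
    · by_cases h2 : v = y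
      · subst h2
        simp [h1]
      · by_cases h3 : v = m x ∨ v = m y
        · simp [h1, h2, h3]
        · simp only [h1, h2, h3, if_false]
          have h4 : m v ≠ x := by
            intro h
            apply h3
            left
            rw [← h, hm.inv]
          have h5 : m v ≠ y := by
            intro h
            apply h3
            right
            rw [← h, hm.inv]
          have h6 : ¬ (m v = m x ∨ m v = m y) := by
            rintro (h | h)
            · apply h1
              rw [← hm.inv v, h, hm.inv]
            · apply h2
              rw [← hm.inv v, h, hm.inv]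
          simp only [h4, h5, h6, if_false]
          exact hm.inv v
  · intro v hv
    unfold put at hv ⊢
    by_cases h1 : v = x
    · subst h1
      simpa using hxy
    · by_cases h2 : v = y
      · subst h2
        simpa [h1] using hxy.symm
      · by_cases h3 : v = m x ∨ v = m y
        · simp [h1, h2, h3] at hv
        · simp only [h1, h2, h3, if_false] at hv ⊢
          exact hm.adj v hv

omit [Fintype V] in
lemma put_fix_iff {m : V → V} {x y : V} (hx : m x = x) (hxy : x ≠ y) (v : V) :
    put m x y v = v ↔ (v ≠ x ∧ v ≠ y ∧ (m v = v ∨ v = m y)) := by
  unfold put
  by_cases h1 : v = x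
  · subst h1
    simp [hxy.symm]
  · by_cases h2 : v = y
    · subst h2
      simp [h1, hxy]
    · by_cases h3 : v = m x ∨ v = m y
      · have h4 : v = m y := by
          rcases h3 with h3 | h3
          · exact absurd (h3.trans hx) h1
          · exact h3
        simp only [h1, h2, if_false, h3, if_true, ne_eq, not_false_eq_true, true_and, true_iff]
        exact Or.inr h4
      · have h4 : v ≠ m y := fun h => h3 (Or.inr h)
        rw [if_neg h1, if_neg h2, if_neg h3]
        simp only [h1, h2, ne_eq, not_false_eq_true, true_and, h4, or_false]

/-- Joining two unmatched vertices. -/
lemma fixN_put_join {m : V → V} {x y : V} (hx : m x = x) (hy : m y = y) (hxy : x ≠ y) :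
    fixN (put m x y) + 2 = fixN m := by
  unfold fixN
  have h1 : univ.filter (fun v => put m x y v = v) =
      (univ.filter (fun v => m v = v)) \ {x, y} := by
    ext v
    simp only [mem_filter, mem_univ, true_and, put_fix_iff hx hxy, mem_sdiff, mem_insert,
      mem_singleton, hy]
    tauto
  have h2 : ({x, y} : Finset V) ⊆ univ.filter (fun v => m v = v) := by
    intro v hv
    simp only [mem_insert, mem_singleton] at hv
    rcases hv with rfl | rfl <;> simp [hx, hy]
  have h3 : #({x, y} : Finset V) = 2 := Finset.card_pair hxy
  rw [h1, Finset.card_sdiff_of_subset h2, h3]
  have := Finset.card_le_card h2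
  omega

/-- Shifting the hole. -/
lemma fixN_put_shift {m : V → V} (hinv : ∀ v, m (m v) = v) {x y : V} (hx : m x = x)
    (hy : m y ≠ y) (hxy : x ≠ y) : fixN (put m x y) = fixN m := by
  unfold fixN
  have hmyx : m y ≠ x := by
    intro h
    apply hxy
    rw [← hx, ← h, hinv]
  have h1 : univ.filter (fun v => put m x y v = v) =
      insert (m y) ((univ.filter (fun v => m v = v)).erase x) := by
    ext v
    simp only [mem_filter, mem_univ, true_and, put_fix_iff hx hxy, mem_insert, mem_erase]
    constructor
    · rintro ⟨a, b, c | c⟩
      · exact Or.inr ⟨a, c⟩
      · exact Or.inl c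
    · rintro (c | ⟨a, c⟩)
      · exact ⟨by rw [c]; exact hmyx, by rw [c]; exact hy, Or.inr c⟩
      · refine ⟨a, ?_, Or.inl c⟩
        rintro rfl
        exact hy c
  rw [h1, Finset.card_insert_of_notMem, Finset.card_erase_of_mem]
  · have : 0 < #(univ.filter (fun v => m v = v)) :=
      Finset.card_pos.mpr ⟨x, by simp [hx]⟩
    omega
  · simp [hx]
  · simp only [mem_erase, mem_filter, mem_univ, true_and, not_and]
    intro _ h
    apply hy
    rw [hinv] at h
    exact h.symm

/-- A move: an unmatched vertex `x` takes the neighbour `y`. -/
def Mv (H : SimpleGraph V) (m m' : V → V) : Prop :=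
  ∃ x y, m x = x ∧ H.Adj x y ∧ m' = put m x y

/-- `dis` strictly decreases when an unmatched vertex takes its partner in the target. -/
lemma dis_put_lt {H : SimpleGraph V} {m N : V → V} (hm : IsM H m) (hN : IsM H N) {x : V}
    (hx : m x = x) (hNx : N x ≠ x) : dis (put m x (N x)) N < dis m N := by
  unfold dis
  apply Finset.card_lt_card
  rw [Finset.ssubset_iff_of_subset]
  · refine ⟨x, ?_, ?_⟩
    · simp only [mem_filter, mem_univ, true_and, hx]
      exact hNx.symm
    · simp only [mem_filter, mem_univ, true_and, not_not]
      simp [put]
  · intro v
    simp only [mem_filter, mem_univ, true_and]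
    intro hv h
    apply hv
    unfold put
    by_cases h1 : v = x
    · subst h1
      simp
    · by_cases h2 : v = N x
      · subst h2
        simp [hNx, hN.inv]
      · by_cases h3 : v = m x ∨ v = m (N x)
        · simp only [h1, h2, h3, if_false, if_true]
          rcases h3 with h3 | h3
          · exact absurd (h3.trans hx) h1
          · exfalso
            -- `v = m (N x)`, and `m v = N v`, so `N x = m v = N v`, hence `v = x`
            have h4 : m v = N x := by rw [h3, hm.inv]
            rw [h] at h4
            apply h1
            rw [← hN.inv v, h4, hN.inv]
        · simp only [h1, h2, h3, if_false]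
          exact h

/-- Greedy transformation of `m` towards `N`. -/
lemma greedy {H : SimpleGraph V} {N : V → V} (hN : IsM H N) :
    ∀ (n : ℕ) (m : V → V), dis m N ≤ n → IsM H m →
      ∃ m', ReflTransGen (Mv H) m m' ∧ IsM H m' ∧ (∀ x, m' x = x → N x = x) ∧
        dis m' N ≤ dis m N ∧ fixN m' ≤ fixN m ∧
        ((∃ x, m x = x ∧ N x ≠ x) → dis m' N < dis m N) := by
  intro n
  induction n with
  | zero =>
    intro m hd hm
    refine ⟨m, ReflTransGen.refl, hm, ?_, le_rfl, le_rfl, ?_⟩
    · intro x hx
      by_contra hNx
      have := dis_put_lt hm hN hx hNx
      omega
    · rintro ⟨x, hx, hNx⟩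
      have := dis_put_lt hm hN hx hNx
      omega
  | succ n ih =>
    intro m hd hm
    by_cases h : ∃ x, m x = x ∧ N x ≠ x
    · obtain ⟨x, hx, hNx⟩ := h
      have hlt := dis_put_lt hm hN hx hNx
      have hadj : H.Adj x (N x) := hN.adj x hNx
      obtain ⟨m', h1, h2, h3, h4, h5, -⟩ := ih (put m x (N x)) (by omega) (put_isM hm hadj)
      refine ⟨m', ReflTransGen.head ⟨x, N x, hx, hadj, rfl⟩ h1, h2, h3, by omega, ?_,
        fun _ => by omega⟩
      refine h5.trans ?_
      by_cases hy : m (N x) = N x
      · have := fixN_put_join hx hy hadj.ne
        omega
      · have := fixN_put_shift hm.inv hx hy hadj.ne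
        omega
    · refine ⟨m, ReflTransGen.refl, hm, ?_, le_rfl, le_rfl, fun h' => absurd h' h⟩
      intro x hx
      by_contra hNx
      exact h ⟨x, hx, hNx⟩

/-! ### Realisation by colourings -/

/-- The classes of `c` are the orbits of `m`. -/
def Rl {k : ℕ} (c : V → Fin k) (m : V → V) : Prop := ∀ x y, c x = c y ↔ (y = x ∨ y = m x)

lemma K_of_Rl (G : SimpleGraph V) {k : ℕ} {c d : V → Fin k} {m : V → V} (hc : Rl c m)
    (hd : Rl d m) : K G c d :=
  K_of_same G c d fun x y => by rw [hc, hd]

omit [Fintype V] in
lemma Rl_put {G : SimpleGraph V} {k : ℕ} {c : V → Fin k} {m : V → V} (hm : IsM Gᶜ m)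
    (hc : Rl c m) {x y : V} (hx : m x = x) (hxy : Gᶜ.Adj x y) :
    Step G c (Function.update c y (c x)) ∧ Rl (Function.update c y (c x)) (put m x y) := by
  have hne : x ≠ y := hxy.ne
  have hnadj : ¬ G.Adj x y := by
    rw [SimpleGraph.compl_adj] at hxy
    exact hxy.2
  constructor
  · apply step_single
    · intro z hyz hz
      have := (hc y z).1 hz.symm
      rcases this with h | h
      · exact hyz.ne h.symm
      · have h1 : m y ≠ y := fun h' => hyz.ne (h.trans h').symm
        have h2 := hm.adj y h1
        rw [SimpleGraph.compl_adj] at h2
        rw [h] at hyz
        exact h2.2 hyz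
    · intro z hyz hz
      have := (hc x z).1 hz.symm
      rw [hx] at this
      have hzx : z = x := by tauto
      subst hzx
      exact hnadj hyz.symm
  · have hmx : ∀ v, v ≠ x → m v ≠ x := by
      intro v hv h
      apply hv
      rw [← hm.inv v, h, hx]
    have hmy : ∀ v, v ≠ m y → m v ≠ y := by
      intro v hv h
      apply hv
      rw [← h, hm.inv]
    have hcx : ∀ v, c v = c x ↔ v = x := by
      intro v
      constructor
      · intro h
        have := (hc x v).1 h.symm
        rw [hx] at this
        tauto
      · rintro rfl
        rfl
    intro u v
    by_cases hu : u = y
    · subst hu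
      by_cases hv : v = u
      · subst hv
        simp
      · rw [Function.update_self, Function.update_of_ne hv]
        constructor
        · intro h
          right
          rw [(hcx v).1 h.symm]
          simp [put, hne.symm]
        · intro h
          rcases h with h | h
          · exact absurd h hv
          · have : put m x u u = x := by simp [put, hne.symm]
            rw [this] at h
            rw [h]
    · by_cases hv : v = y
      · subst hv
        rw [Function.update_self, Function.update_of_ne hu]
        rw [hcx]
        constructor
        · rintro rfl
          right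
          simp [put]
        · intro h
          rcases h with h | h
          · exact absurd h.symm hu
          · by_contra hux
            unfold put at h
            simp only [hux, hu, if_false] at h
            split_ifs at h with h1
            · exact hu h.symm
            · apply h1
              right
              rw [h, hm.inv]
      · rw [Function.update_of_ne hu, Function.update_of_ne hv, hc]
        by_cases hux : u = x
        · subst hux
          rw [hx]
          have : put m u y u = y := by simp [put]
          rw [this]
          constructor
          · intro h
            left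
            tauto
          · intro h
            rcases h with h | h
            · exact Or.inl h
            · exact absurd h hv
        · by_cases huy : u = m x ∨ u = m y
          · have huy' : u = m y := by
              rcases huy with h | h
              · exact absurd (h.trans hx) hux
              · exact h
            have : put m x y u = u := by simp [put, hux, hu, huy]
            rw [this]
            constructor
            · rintro (h | h)
              · exact Or.inl h
              · exfalso
                apply hv
                rw [h, huy', hm.inv]
            · intro h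
              left
              tauto
          · have : put m x y u = m u := by simp [put, hux, hu, huy]
            rw [this]

omit [Fintype V] in
lemma Rl_moves {G : SimpleGraph V} {k : ℕ} {m m' : V → V} (h : ReflTransGen (Mv Gᶜ) m m')
    (hm : IsM Gᶜ m) {c : V → Fin k} (hc : Rl c m) : ∃ c', K G c c' ∧ Rl c' m' ∧ IsM Gᶜ m' := by
  induction h with
  | refl => exact ⟨c, ReflTransGen.refl, hc, hm⟩
  | tail _ hstep ih =>
    obtain ⟨c₁, hK, hR, hM⟩ := ih
    obtain ⟨x, y, hx, hxy, rfl⟩ := hstep
    obtain ⟨h1, h2⟩ := Rl_put hM hR hx hxy
    exact ⟨_, hK.tail h1, h2, put_isM hM hxy⟩

/-- Number of colours used. -/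
lemma card_image {k : ℕ} {c : V → Fin k} {m : V → V} (hinv : ∀ x, m (m x) = x) (hc : Rl c m) :
    2 * #(univ.image c) = Fintype.card V + fixN m := by
  have h1 : Fintype.card V = ∑ i ∈ univ.image c, #(univ.filter (fun x => c x = i)) := by
    rw [← Finset.card_univ]
    exact Finset.card_eq_sum_card_image c univ
  have h2 : fixN m = ∑ i ∈ univ.image c, #((univ.filter (fun x => m x = x)).filter
      (fun x => c x = i)) := by
    unfold fixN
    apply Finset.card_eq_sum_card_fiberwise
    intro x _
    exact Finset.mem_coe.mpr (Finset.mem_image_of_mem c (Finset.mem_univ x))
  rw [h1, h2, ← Finset.sum_add_distrib, mul_comm, ← smul_eq_mul, ← Finset.sum_const]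
  refine Finset.sum_congr rfl fun i hi => ?_
  obtain ⟨x, -, rfl⟩ := Finset.mem_image.mp hi
  have e1 : univ.filter (fun y => c y = c x) = {x, m x} := by
    ext y
    simp only [mem_filter, mem_univ, true_and, mem_insert, mem_singleton]
    rw [eq_comm, hc]
  by_cases hx : m x = x
  · have e2 : (univ.filter (fun y => m y = y)).filter (fun y => c y = c x) = {x} := by
      ext y
      simp only [mem_filter, mem_univ, true_and, mem_singleton]
      rw [eq_comm (a := c y), hc, hx]
      constructor
      · rintro ⟨-, h⟩
        tauto
      · rintro rfl
        exact ⟨hx, Or.inl rfl⟩
    rw [e1, e2, hx]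
    simp
  · have e2 : (univ.filter (fun y => m y = y)).filter (fun y => c y = c x) = ∅ := by
      ext y
      simp only [mem_filter, mem_univ, true_and, notMem_empty, iff_false, not_and]
      intro hy h
      rw [eq_comm, hc] at h
      rcases h with rfl | rfl
      · exact hx hy
      · rw [hinv] at hy
        exact hx hy.symm
    rw [e1, e2, Finset.card_pair (Ne.symm hx)]
    simp

/-- Splitting a pair. -/
def split (m : V → V) (x : V) : V → V := fun v => if v = x ∨ v = m x then v else m v

omit [Fintype V] in
lemma split_isM {H : SimpleGraph V} {m : V → V} (hm : IsM H m) (x : V) : IsM H (split m x) := by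
  constructor
  · intro v
    unfold split
    by_cases h : v = x ∨ v = m x
    · simp [h]
    · have h' : ¬ (m v = x ∨ m v = m x) := by
        rintro (h1 | h1)
        · apply h
          right
          rw [← h1, hm.inv]
        · apply h
          left
          rw [← hm.inv v, h1, hm.inv]
      simp only [h, h', if_false]
      exact hm.inv v
  · intro v hv
    unfold split at hv ⊢
    by_cases h : v = x ∨ v = m x
    · simp [h] at hv
    · simp only [h, if_false] at hv ⊢
      exact hm.adj v hv

omit [Fintype V] in
lemma Rl_split {G : SimpleGraph V} {k : ℕ} {c : V → Fin k} {m : V → V} (hm : IsM Gᶜ m)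
    (hc : Rl c m) {x : V} (a : Fin k) (ha : ∀ y, c y ≠ a) :
    Step G c (Function.update c x a) ∧ Rl (Function.update c x a) (split m x) := by
  constructor
  · apply step_single
    · intro z hxz hz
      have := (hc x z).1 hz.symm
      rcases this with h | h
      · exact hxz.ne h.symm
      · have h1 : m x ≠ x := fun h' => hxz.ne (h.trans h').symm
        have h2 := hm.adj x h1
        rw [SimpleGraph.compl_adj] at h2
        rw [h] at hxz
        exact h2.2 hxz
    · intro z _
      exact ha z
  · intro u v
    by_cases hu : u = x
    · subst hu
      by_cases hv : v = u
      · subst hv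
        simp
      · rw [Function.update_self, Function.update_of_ne hv]
        have : split m u u = u := by simp [split]
        rw [this]
        constructor
        · intro h
          exact absurd h.symm (ha v)
        · intro h
          rcases h with h | h <;> exact absurd h hv
    · by_cases hv : v = x
      · subst hv
        rw [Function.update_self, Function.update_of_ne hu]
        constructor
        · intro h
          exact absurd h (ha u)
        · intro h
          exfalso
          rcases h with h | h
          · exact hu h.symm
          · unfold split at h
            by_cases h1 : u = v ∨ u = m v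
            · rw [if_pos h1] at h
              exact hu h.symm
            · rw [if_neg h1] at h
              apply h1
              right
              rw [h, hm.inv]
      · rw [Function.update_of_ne hu, Function.update_of_ne hv, hc]
        by_cases h1 : u = m x
        · have : split m x u = u := by simp [split, h1]
          rw [this]
          constructor
          · rintro (h | h)
            · exact Or.inl h
            · exfalso
              apply hv
              rw [h, h1, hm.inv]
          · intro h
            left
            tauto
        · have : split m x u = m u := by simp [split, h1, hu]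
          rw [this]

end Pool.Agent.KM
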